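import Pool.Agent.LHC.Final

/-!
Log-concavity of the normalised Hurwitz-Hodge integrals over the moduli of double covers, with at
most two Hodge classes, in every genus, for both sequences.

The rational Chow ring of the moduli space of stable rational curves with `N + 2` markings is
presented by the boundary classes `bd S` (`ChowRing`), where one marking is the root and `S` runs
over the subsets of the other `N + 1` markings, which are all ramified.  If `N + 1 = 2g + 1` the
root is ramified, if `N + 1 = 2g + 2` it is not.  The class `psi` is the cotangent class at the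
root.  A degree map is normalised on the zero-dimensional strata (`IsDegree`).  The Hodge
classes are characterised by homogeneity and by their degrees on all boundary strata (`IsHodge`).
-/

open Finset

namespace Pool.Agent.Results.MP_b3345f_ag.TwoHodgeClasses

open Pool.Agent.helper17

/-- The integral `d` of the problem: the root is the unramified marking; the power of `psi` is
`2g - |l|`, and one half is the degree of the map to the space of stable rational curves. -/
noncomputable def hodgeIntegralU (g : ℕ) (deg : ChowRing (Fin (2 * g + 2)) →ₗ[ℚ] ℚ)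
    (lam : ℕ → ChowRing (Fin (2 * g + 2))) {n : ℕ} (l : Fin n → ℕ) : ℚ :=
  1 / 2 * deg (psi (Fin (2 * g + 2)) ^ (2 * g - ∑ t, l t) * ∏ t, lam (l t))

/-- Log-concave sequences. -/
def LogConcaveSeq (a : ℕ → ℚ) : Prop := ∀ i, 1 ≤ i → a (i - 1) * a (i + 1) ≤ a i ^ 2

variable {α : Type*} [DecidableEq α] [Fintype α]

/-- The class `lam 0` is one. -/
theorem lam_zero (h2 : 2 ≤ Fintype.card α) {deg : ChowRing α →ₗ[ℚ] ℚ} {lam : ℕ → ChowRing α}
    (hd : IsDegree deg) (h : IsHodge deg lam) : lam 0 = 1 := by
  obtain ⟨p, hp, hpe⟩ := h.homog 0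
  have hC : p = MvPolynomial.C (MvPolynomial.coeff 0 p) := by
    have := MvPolynomial.homogeneousComponent_of_mem (m := 0) hp
    rw [if_pos rfl] at this
    rw [← this, MvPolynomial.homogeneousComponent_zero]
    simp
  -- compare with the class one
  obtain ⟨F, hF, hFc⟩ : ∃ F : Finset (Finset α), Nested F ∧ F.card + 2 = Fintype.card α := by
    by_contra hno
    push Not at hno
    have hz : deg = 0 := by
      apply LinearMap.ext
      intro x
      obtain ⟨q, rfl⟩ := Ideal.Quotient.mk_surjective x
      rw [← MvPolynomial.sum_homogeneousComponent q, map_sum, map_sum, LinearMap.zero_apply]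
      apply sum_eq_zero
      intro i _
      have hi := MvPolynomial.homogeneousComponent_isHomogeneous i q
      by_cases hic : i + 2 = Fintype.card α
      · have hm := mk_mem_stSpan h2 hi
        unfold stSpan at hm
        have hempty : {y | ∃ F : Finset (Finset α), Nested F ∧ F.card = i ∧ y = strat F} = ∅ := by
          ext y
          simp only [Set.mem_ofPred_eq, Set.mem_empty_iff_false, iff_false]
          rintro ⟨F, hF, hFi, _⟩
          exact hno F hF (by omega)
        rw [hempty, Submodule.span_empty, Submodule.mem_bot] at hm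
        rw [hm, map_zero]
      · exact hd.homog i _ hi hic
    have h1 := isDegree_degC h2
    have h3 := deg_unique h2 hd h1
    have h4 : degC h2 = (0 : ChowRing α →ₗ[ℚ] ℚ) := by rw [← h3, hz]
    have h5 := (isDeg_degP (α := α) h2).norm
    have h6 : degC h2 (Ideal.Quotient.mk (Ideal.span (relations α))
        ((-MvPolynomial.X (U (sing α))) ^ ((sing α).card - 2))) = 1 := by
      rw [degC_mk]; exact h5
    rw [h4] at h6
    simp at h6
  have h0 := h.degree 0 F hF (by omega)
  have hone : hodgeDegree F = 1 := by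
    have := (isHodge_lamC h2).degree 0 F hF (by omega)
    have h7 : lamC α 0 = 1 := by
      unfold lamC
      rw [MvPolynomial.homogeneousComponent_zero]
      have h3 : MvPolynomial.coeff 0 (cls (sing α)) = 1 := constantCoeff_cls (sing α)
      rw [h3, map_one, map_one]
    rw [h7, one_mul, (isDegree_degC h2).point F hF hFc] at this
    exact this.symm
  rw [hone, ← hpe, hC] at h0
  have h8 : Ideal.Quotient.mk (Ideal.span (relations α)) (MvPolynomial.C (MvPolynomial.coeff 0 p))
      = (MvPolynomial.coeff 0 p) • (1 : ChowRing α) := by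
    rw [← MvPolynomial.algebraMap_eq, Algebra.algebraMap_eq_smul_one]
    rfl
  rw [h8, smul_mul_assoc, one_mul, map_smul, hd.point F hF hFc, smul_eq_mul, mul_one] at h0
  rw [← hpe, hC, h8, h0, one_smul]

/-- The sequence in terms of the product of two Hodge classes. -/
theorem seq_aux {N : ℕ} (hN : 2 ≤ N) {deg : ChowRing (Fin (N + 1)) →ₗ[ℚ] ℚ}
    {lam : ℕ → ChowRing (Fin (N + 1))} (hd : IsDegree deg) (h : IsHodge deg lam) (n : ℕ)
    (hn : n ≤ 1) (l : Fin n → ℕ) (D : (Fin (n + 1) → ℕ) → ℚ)
    (hD : ∀ k : Fin (n + 1) → ℕ,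
      D k = 1 / 2 * deg (psi (Fin (N + 1)) ^ (N - 1 - ∑ t, k t) * ∏ t, lam (k t))) :
    LogConcaveSeq (fun i => 2 ^ (∑ t, l t + i + 1) * D (Fin.snoc l i : Fin (n + 1) → ℕ)) := by
  intro i hi
  -- the numbers in terms of two classes
  have key : ∀ j, 2 ^ (∑ t, l t + j + 1) * D (Fin.snoc l j : Fin (n + 1) → ℕ) =
      2 ^ (∑ t, l t + j) * deg (psi (Fin (N + 1)) ^ (N - 1 - (∑ t, l t + j)) *
        (lam (∑ t, l t) * lam j)) := by
    intro j
    rw [hD, Fin.sum_univ_castSucc, Fin.prod_univ_castSucc]
    simp only [Fin.snoc_castSucc, Fin.snoc_last]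
    have e : ∏ t, lam (l t) = lam (∑ t, l t) := by
      have hcases : n = 0 ∨ n = 1 := by omega
      rcases hcases with rfl | rfl
      · rw [univ_eq_empty, prod_empty, sum_empty,
          lam_zero (by rw [Fintype.card_fin]; omega) hd h]
      · rw [Fin.prod_univ_one, Fin.sum_univ_one]
    rw [e, pow_succ]
    ring
  simp only [key]
  exact Pool.Agent.LHC.seq_logconcave hN hd h (∑ t, l t) i hi

/-- For every genus `g > 0` and every tuple `l` of length at most one: a degree map and Hodge
classes exist on both spaces, and for all of them the sequences `2^(|l|+i+1) D_((l,i),2g+2)` and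
`2^(|l|+i+1) d_((l,i),2g+2)`, `i = 0, 1, 2, ...`, are log-concave. -/
theorem result (g : ℕ) (hg : 0 < g) (n : ℕ) (hn : n ≤ 1) (l : Fin n → ℕ) :
    ((∃ (deg : ChowRing (Fin (2 * g + 1)) →ₗ[ℚ] ℚ) (lam : ℕ → ChowRing (Fin (2 * g + 1))),
        IsDegree deg ∧ IsHodge deg lam) ∧
      ∀ (deg : ChowRing (Fin (2 * g + 1)) →ₗ[ℚ] ℚ) (lam : ℕ → ChowRing (Fin (2 * g + 1))),
        IsDegree deg → IsHodge deg lam →
          LogConcaveSeq (fun i => 2 ^ (∑ t, l t + i + 1) *
            hodgeIntegral g deg lam (Fin.snoc l i : Fin (n + 1) → ℕ))) ∧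
    ((∃ (deg : ChowRing (Fin (2 * g + 2)) →ₗ[ℚ] ℚ) (lam : ℕ → ChowRing (Fin (2 * g + 2))),
        IsDegree deg ∧ IsHodge deg lam) ∧
      ∀ (deg : ChowRing (Fin (2 * g + 2)) →ₗ[ℚ] ℚ) (lam : ℕ → ChowRing (Fin (2 * g + 2))),
        IsDegree deg → IsHodge deg lam →
          LogConcaveSeq (fun i => 2 ^ (∑ t, l t + i + 1) *
            hodgeIntegralU g deg lam (Fin.snoc l i : Fin (n + 1) → ℕ))) := by
  refine ⟨⟨exists_isHodge (by rw [Fintype.card_fin]; omega), ?_⟩,
    ⟨exists_isHodge (by rw [Fintype.card_fin]; omega), ?_⟩⟩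
  · intro deg lam hd h
    exact seq_aux (N := 2 * g) (by omega) hd h n hn l _ (fun k => rfl)
  · intro deg lam hd h
    exact seq_aux (N := 2 * g + 1) (by omega) hd h n hn l _ (fun k => rfl)

end Pool.Agent.Results.MP_b3345f_ag.TwoHodgeClasses
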